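import Pool.Agent.J4.H34.SS.Main
import Pool.Agent.J4.H34.SS.Dens

/-!
# Independence of the classes of `Ω` for almost all tuples of forms of an arbitrary finite family

Q1 of MP_e0aac0_nt asks for the independence of `Ω(n), Ω(n + 1), ..., Ω(n + k - 1)`. We take any finite
family `𝓕` of linear forms `q n + h`, no two of which are proportional (for instance `n + h`, `h ∈ S`, for
any finite set `S` of shifts), and put the values of `Ω` in `r` classes, arbitrarily. Outside a set of `N`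
of logarithmic density zero:
* the mean over the `k`-tuples of forms of `𝓕` of the square of the sum of Q1 is at most `C / |𝓕|`; hence
  the sum of Q1 is at most `ε` for all but `C ε ^ (-2) |𝓕| ^ (k - 1)` tuples;
* for every `ε > 0` there is a subfamily `𝓣` with `|𝓕 \ 𝓣| ≤ C' ε ^ (-2) (|𝓣| + 1) ^ (k - 1)` such that the
  sum of Q1 is at most `ε` for all the `k`-tuples of distinct forms of `𝓣`.
The constants are explicit and depend only on `k` and the number of classes. Arbitrary side information on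
`n` with finitely many values may be added.
-/

set_option autoImplicit false

namespace Pool.Agent.Results.MP_e0aac0_nt.FamiliesOfLinearForms

open Finset

/-- `Ω(n)`, the number of prime factors counted with multiplicity -/
def Om (n : ℕ) : ℕ := ArithmeticFunction.cardFactors n

/-- the value at `n` of the linear form `q n + h` given by the pair `L = (q, h)` -/
def val (L : ℕ × ℕ) (n : ℕ) : ℕ := L.1 * n + L.2

/-- `𝓕` consists of forms `q n + h`, `q ≥ 1`, and no two of them are proportional -/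
def NonProportional (𝓕 : Finset (ℕ × ℕ)) : Prop :=
  (∀ L ∈ 𝓕, 1 ≤ L.1) ∧ ∀ L ∈ 𝓕, ∀ L' ∈ 𝓕, L ≠ L' → L.1 * L'.2 ≠ L'.1 * L.2

/-- the proportion of the `1 ≤ n ≤ N` with the property `P` -/
noncomputable def dens (N : ℕ) (P : ℕ → Prop) : ℝ := ({n : ℕ | (1 ≤ n ∧ n ≤ N) ∧ P n}.ncard : ℝ) / N

/-- the sum of Q1 for the forms `L 1, ..., L k` in place of the shifts, with the values of `Ω` in classes
(the class of the value `v` at the `i`-th form is `c i v`) and the side information `f`: the sum over the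
value `s` of `f` and the classes `l 1, ..., l k` of the absolute value of the proportion of the `n ≤ N` with
`f n = s` and `Ω(L_i(n))` in the class `l i` for all `i`, minus the product of the proportion of the `n ≤ N`
with `f n = s` and of the proportions of the `n ≤ N` with `Ω(n)` in the class `l i` -/
noncomputable def q1sum {k r R : ℕ} (N : ℕ) (c : Fin k → ℕ → Fin r) (f : ℕ → Fin R)
    (L : Fin k → ℕ × ℕ) : ℝ :=
  ∑ s : Fin R, ∑ l : Fin k → Fin r,
    |dens N (fun n => f n = s ∧ ∀ i, c i (Om (val (L i) n)) = l i) -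
      dens N (fun n => f n = s) * ∏ i, dens N (fun n => c i (Om n) = l i)|

/-- the properties of a good `N`, for all side informations `f` with `R` values -/
def Good {k r : ℕ} (R : ℕ) (𝓕 : Finset (ℕ × ℕ)) (c : Fin k → ℕ → Fin r) (N : ℕ) : Prop :=
  ∀ f : ℕ → Fin R,
    -- the square mean over all the tuples
    (∑ L ∈ Fintype.piFinset (fun _ : Fin k => 𝓕), q1sum N c f L ^ 2 ≤
      2 * (k * (R * r ^ k)) ^ 2 * (𝓕.card : ℝ) ^ (k - 1)) ∧
    -- a subfamily without exceptional tuples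
    ∀ ε : ℝ, 0 < ε → ∃ 𝓣 : Finset (ℕ × ℕ), 𝓣 ⊆ 𝓕 ∧
      ((𝓕 \ 𝓣).card : ℝ) ≤
        2 ^ (k + 1) * (k * (R * r ^ k) + 1) ^ 3 / ε ^ 2 * ((𝓣.card : ℝ) + 1) ^ (k - 1) ∧
      ∀ L : Fin k → ℕ × ℕ, Function.Injective L → (∀ i, L i ∈ 𝓣) → q1sum N c f L ≤ ε

open Classical in
/-- the sum of `1 / N` over the `N ≤ X` in `E` -/
noncomputable def logSum (E : Set ℕ) (X : ℕ) : ℝ := ∑ N ∈ (Icc 1 X).filter (fun N => N ∈ E), 1 / (N : ℝ)

/-- **Theorem.** (1) Let `𝓕` be a finite family of pairwise non-proportional linear forms. For all `k`, `r`,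
`R`, `η > 0` and `X ≥ X₀`, uniformly in the partitions `c 1, ..., c k` of the values of `Ω` into `r` classes:
the sum of `1 / N` over the `N ≤ X` which are not good is at most `η log X`. (2) For given partitions there
is one set `E` of logarithmic density zero such that for all finite families `𝓕` of pairwise
non-proportional forms and all `R`, all large `N` outside `E` are good. -/
theorem result (k r : ℕ) :
    (∀ (R : ℕ) (𝓕 : Finset (ℕ × ℕ)), NonProportional 𝓕 → ∀ η : ℝ, 0 < η → ∃ X₀ : ℕ, ∀ X : ℕ, X₀ ≤ X →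
      ∀ c : Fin k → ℕ → Fin r, logSum {N | ¬ Good R 𝓕 c N} X ≤ η * Real.log X) ∧
    (∀ c : Fin k → ℕ → Fin r, ∃ E : Set ℕ,
      (∀ η : ℝ, 0 < η → ∃ X₀ : ℕ, ∀ X : ℕ, X₀ ≤ X → logSum E X ≤ η * Real.log X) ∧
      ∀ (R : ℕ) (𝓕 : Finset (ℕ × ℕ)), NonProportional 𝓕 → ∃ N₀ : ℕ, ∀ N : ℕ, N₀ ≤ N → N ∉ E →
        Good R 𝓕 c N) := by
  classical
  have hls : ∀ (E : Set ℕ) (X : ℕ), logSum E X = Pool.Agent.J4.H34.SS.ls E X := by
    intro E X
    unfold logSum
    exact Pool.Agent.J4.H34.SS.ls_eq E X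
  have hgood : ∀ (R : ℕ) (𝓕 : Finset (ℕ × ℕ)) (c : Fin k → ℕ → Fin r) (N : ℕ),
      Pool.Agent.J4.H34.SS.GoodScale R 𝓕 c N → Good R 𝓕 c N := by
    intro R 𝓕 c N hg f
    have hdens : ∀ P : ℕ → Prop, dens N P = Pool.Agent.J4.H34.SS.dens N P := by
      intro P
      unfold dens Pool.Agent.J4.H34.SS.dens
      congr 2
      rw [← Set.ncard_coe_finset]
      congr 1
      ext n
      simp
    have hq : ∀ L : Fin k → ℕ × ℕ, q1sum N c f L = Pool.Agent.J4.H34.SS.q1sum N c f L := by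
      intro L
      unfold q1sum Pool.Agent.J4.H34.SS.q1sum
      simp only [hdens]
      rfl
    obtain ⟨h1, h2⟩ := hg f
    refine ⟨?_, fun ε hε => ?_⟩
    · simp only [hq]
      exact h1
    · obtain ⟨T, hT, h3, h4⟩ := h2 ε hε
      refine ⟨T, hT, h3, fun L hi hL => ?_⟩
      rw [hq]
      exact h4 L hi hL
  have h1 : ∀ (R : ℕ) (𝓕 : Finset (ℕ × ℕ)), NonProportional 𝓕 → ∀ η : ℝ, 0 < η →
      ∃ X₀ : ℕ, ∀ X : ℕ, X₀ ≤ X → ∀ c : Fin k → ℕ → Fin r,
        Pool.Agent.J4.H34.SS.ls {N | ¬ Good R 𝓕 c N} X ≤ η * Real.log X := by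
    intro R 𝓕 h𝓕 η hη
    obtain ⟨X₀, h⟩ := Pool.Agent.J4.H34.SS.main Pool.Agent.J4.H34.SS.pairs k r R 𝓕 h𝓕.1 h𝓕.2 η hη
    refine ⟨X₀, fun X hX c => le_trans ?_ (h X hX c)⟩
    rw [← Pool.Agent.J4.H34.SS.ls_eq]
    refine sum_le_sum_of_subset_of_nonneg ?_ fun i _ _ => by positivity
    intro N hN
    rw [mem_filter] at hN ⊢
    exact ⟨hN.1, fun hg => hN.2 (hgood R 𝓕 c N hg)⟩
  refine ⟨fun R 𝓕 h𝓕 η hη => ?_, fun c => ?_⟩
  · obtain ⟨X₀, h⟩ := h1 R 𝓕 h𝓕 η hη
    exact ⟨X₀, fun X hX c => by rw [hls]; exact h X hX c⟩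
  · obtain ⟨e, he⟩ := exists_surjective_nat (ℕ × Finset (ℕ × ℕ))
    obtain ⟨E, hE, hE2⟩ := Pool.Agent.J4.H34.SS.diag
      (fun i => {N | NonProportional (e i).2 ∧ ¬ Good (e i).1 (e i).2 c N}) (by
        intro i
        by_cases hi : NonProportional (e i).2
        · intro η hη
          obtain ⟨X₀, h⟩ := h1 (e i).1 (e i).2 hi η hη
          exact ⟨X₀, fun X hX => le_trans
            (Pool.Agent.J4.H34.SS.ls_mono fun N _ hN => hN.2) (h X hX c)⟩
        · intro η hη
          refine ⟨0, fun X _ => ?_⟩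
          have : {N | NonProportional (e i).2 ∧ ¬ Good (e i).1 (e i).2 c N} = (∅ : Set ℕ) := by
            ext N
            simp [hi]
          rw [this]
          unfold Pool.Agent.J4.H34.SS.ls
          simp only [Set.indicator_empty, sum_const_zero]
          exact mul_nonneg hη.le (Real.log_natCast_nonneg X))
    refine ⟨E, fun η hη => ?_, fun R 𝓕 h𝓕 => ?_⟩
    · obtain ⟨X₀, h⟩ := hE η hη
      exact ⟨X₀, fun X hX => by rw [hls]; exact h X hX⟩
    · obtain ⟨i, hi⟩ := he (R, 𝓕)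
      obtain ⟨N₀, h⟩ := hE2 i
      refine ⟨N₀, fun N hN hNE => ?_⟩
      by_contra hg
      apply hNE
      apply h N hN
      rw [hi]
      exact ⟨h𝓕, hg⟩

end Pool.Agent.Results.MP_e0aac0_nt.FamiliesOfLinearForms
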