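import Pool.Agent.Results.MP_e0aac0_nt.PowerSavingIndependence
import Pool.Agent.J4.H74.SH.Union
import Pool.Agent.N760.IT.C

/-!
# Independence of the `Ω(n + h i)` for shifts which are (near) values of multiplicative functions, at all scales

Let `f_0, ..., f_r` be multiplicative functions like Euler's function `φ`, the sum `σ` of the divisors, or the
identity. For almost all tuples `m` (all `m ≤ M` but `M ^ (r + 1) / (log M) ^ U`) and for every tuple of shifts
`h`, `h i` being `f_i(m_i)` or another number near `G_i(f_i(m_i))`, the values of `Ω` at the points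
`n + h 0, ..., n + h r` are independent up to `ε`, simultaneously at ALL scales `N` (`1 ≤ n ≤ N`) for which the
shifts are between `N ^ (1 - κ)` and `A N`: the integer part of `Ω(n + h i) / 2` is independent of everything that
the other `Ω(n + h j)` determine, and its law is that of the integer part of `Ω(n) / 2`. At the scales without
exceptional character, in any given sparse set of scales, the same holds for `Ω(n + h i)` itself.

The definitions `Independent`, `NonExceptional` and those on which they rest are in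
`Pool.Agent.Results.MP_e0aac0_nt.PowerSavingIndependence`, which counts the exceptional tuples of shifts at one
scale. Here one tuple of shifts is good for all scales; and the values of `φ` and `σ` have density zero, are taken with
huge multiplicity and may be near each other, so the number of exceptional shifts does not bound the number of the
exceptional `m` directly.
-/

set_option autoImplicit false

namespace Pool.Agent.Results.MP_e0aac0_nt.MultiplicativeShifts

open Finset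
open ArithmeticFunction (cardFactors)
open Pool.Agent.Results.MP_e0aac0_nt.PowerSavingIndependence (num rest Independent NonExceptional)
open Pool.Agent.J4.H74.TupNear (Bx keep_near_tuples)
open Pool.Agent.J4.H74.SH (sparse_union prod_close grid grid_near grid_sparse)

/-- `f` is multiplicative, positive and of polynomial growth, and for the large primes `p` we have
`f(p) ≤ M p`, and different large primes have different values -/
structure LinearAtPrimes (f : ℕ → ℕ) : Prop where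
  mul : ∀ m n : ℕ, Nat.Coprime m n → f (m * n) = f m * f n
  pos : ∀ m : ℕ, 1 ≤ m → 1 ≤ f m
  growth : ∃ C D : ℕ, ∀ m : ℕ, 1 ≤ m → f m ≤ C * m ^ D
  prime : ∃ P M : ℕ, ∀ p : ℕ, P ≤ p → p.Prime →
    f p ≤ M * p ∧ ∀ q : ℕ, P ≤ q → q.Prime → f q = f p → q = p

/-- the steps of `G` are at least a positive constant, and `G(v) ≤ C v^d`, where `d ≥ 1` -/
structure Expanding (G : ℕ → ℝ) (d : ℝ) : Prop where
  one_le : 1 ≤ d
  step : ∃ a : ℝ, 0 < a ∧ ∀ v : ℕ, 1 ≤ v → a ≤ G (v + 1) - G v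
  growth : ∃ C : ℝ, ∀ v : ℕ, 1 ≤ v → G v ≤ C * (v : ℝ) ^ d

/-- `h` is a tuple of shifts near the tuple of the `G_i(f_i(m_i))`: `h_i ≥ 1` and
`|h_i - G_i(f_i(m_i))| ≤ f_i(m_i) ^ κ` for all `i`. -/
def Near {k : ℕ} (f : Fin k → ℕ → ℕ) (G : Fin k → ℕ → ℝ) (κ : ℝ) (m h : Fin k → ℕ) : Prop :=
  ∀ i, 1 ≤ h i ∧ |(h i : ℝ) - G i (f i (m i))| ≤ (f i (m i) : ℝ) ^ κ

/-- `N` is a scale for the shifts `h`: `N ^ (1 - κ) ≤ h_i ≤ A N` for all `i`. -/
def Scale {k : ℕ} (A : ℕ) (κ : ℝ) (N : ℕ) (h : Fin k → ℕ) : Prop :=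
  ∀ i, h i ≤ A * N ∧ (N : ℝ) ^ (1 - κ) ≤ h i

/-- The set `S` has at most `C X ^ κ` elements `N` with `1 ≤ N ≤ X`, for a constant `C` and all `X ≥ 1`. -/
def Sparse (κ : ℝ) (S : Set ℕ) : Prop :=
  ∃ C : ℝ, ∀ X : ℕ, 1 ≤ X → (Set.ncard {N : ℕ | 1 ≤ N ∧ N ≤ X ∧ N ∈ S} : ℝ) ≤ C * (X : ℝ) ^ κ

/-! ### Neighbouring scales -/

lemma num_mono {N N' : ℕ} (h : N ≤ N') (F : ℕ → Prop) : num (Icc 1 N) F ≤ num (Icc 1 N') F := by
  classical
  unfold num
  refine Nat.cast_le.2 (card_le_card ?_)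
  apply filter_subset_filter
  exact Icc_subset_Icc_right h

lemma num_le_add {N N' : ℕ} (h : N ≤ N') (F : ℕ → Prop) :
    num (Icc 1 N') F ≤ num (Icc 1 N) F + ((N' : ℝ) - N) := by
  classical
  unfold num
  have h1 : (Icc 1 N').filter F ⊆ (Icc 1 N).filter F ∪ Ioc N N' := by
    intro n hn
    rw [mem_filter, mem_Icc] at hn
    rw [mem_union, mem_filter, mem_Icc, mem_Ioc]
    by_cases h2 : n ≤ N
    · exact Or.inl ⟨⟨hn.1.1, h2⟩, hn.2⟩
    · exact Or.inr ⟨not_le.1 h2, hn.1.2⟩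
  have h2 : ((Icc 1 N').filter F).card ≤ ((Icc 1 N).filter F).card + (N' - N) := by
    refine (card_le_card h1).trans ((card_union_le _ _).trans ?_)
    rw [Nat.card_Ioc]
  have h3 : (((N' - N : ℕ)) : ℝ) = (N' : ℝ) - N := Nat.cast_sub h
  have h4 : ((((Icc 1 N').filter F).card : ℕ) : ℝ) ≤
      ((((Icc 1 N).filter F).card + (N' - N) : ℕ) : ℝ) := Nat.cast_le.2 h2
  rw [Nat.cast_add, h3] at h4
  convert h4 using 2

lemma num_le {N : ℕ} (F : ℕ → Prop) : num (Icc 1 N) F ≤ N := by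
  classical
  unfold num
  have h1 := card_filter_le (Icc 1 N) F
  rw [Nat.card_Icc, Nat.add_sub_cancel] at h1
  refine le_trans (le_of_eq ?_) (Nat.cast_le.2 h1)
  congr!

lemma num_nonneg (S : Finset ℕ) (F : ℕ → Prop) : 0 ≤ num S F := by
  unfold num
  exact Nat.cast_nonneg _

lemma dens_mem (N : ℕ) (F : ℕ → Prop) : 0 ≤ PowerSavingIndependence.dens N F ∧ PowerSavingIndependence.dens N F ≤ 1 := by
  unfold PowerSavingIndependence.dens
  exact ⟨div_nonneg (num_nonneg _ _) (Nat.cast_nonneg _), div_le_one_of_le₀ (num_le F) (Nat.cast_nonneg _)⟩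

lemma dens_near {N N' K : ℕ} (hN : 1 ≤ N) (hK : 1 ≤ K) (h1 : N ≤ N') (h2 : (K : ℝ) * ((N' : ℝ) - N) ≤ N)
    (F : ℕ → Prop) : |PowerSavingIndependence.dens N F - PowerSavingIndependence.dens N' F| ≤ 1 / K := by
  have hN0 : (0 : ℝ) < N := by exact_mod_cast hN
  have h1' : (N : ℝ) ≤ N' := by exact_mod_cast h1
  have hN'0 : (0 : ℝ) < N' := by linarith
  have hK0 : (0 : ℝ) < K := by exact_mod_cast hK
  have ha := num_mono h1 F
  have hb := num_le_add h1 F
  have hc := num_le (N := N) F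
  have hd := num_nonneg (Icc 1 N) F
  have key : |PowerSavingIndependence.dens N F - PowerSavingIndependence.dens N' F| ≤ ((N' : ℝ) - N) / N := by
    unfold PowerSavingIndependence.dens
    generalize num (Icc 1 N) F = a at ha hb hc hd
    generalize num (Icc 1 N') F = b at ha hb
    have e : a / N - b / N' = (a * N' - b * N) / (N * N') := by
      field_simp
    rw [e, abs_div, abs_of_pos (mul_pos hN0 hN'0), div_le_div_iff₀ (mul_pos hN0 hN'0) hN0]
    have h3 : |a * N' - b * N| ≤ ((N' : ℝ) - N) * N := by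
      rw [abs_le]
      constructor
      · nlinarith
      · nlinarith
    calc |a * N' - b * N| * N ≤ (((N' : ℝ) - N) * N) * N := mul_le_mul_of_nonneg_right h3 hN0.le
      _ ≤ (((N' : ℝ) - N) * N) * N' := mul_le_mul_of_nonneg_left h1' (mul_nonneg (by linarith) hN0.le)
      _ = ((N' : ℝ) - N) * (N * N') := by ring
  refine key.trans ?_
  rw [div_le_div_iff₀ hN0 hK0, one_mul]
  linarith

lemma indep_near {r s N N' K : ℕ} {ε : ℝ} (hN : 1 ≤ N) (hK : 1 ≤ K) (h1 : N ≤ N')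
    (h2 : (K : ℝ) * ((N' : ℝ) - N) ≤ N) {h : Fin (r + 1) → ℕ} (hI : Independent s ε N' h) :
    Independent s (ε + (r + 4) / K) N h := by
  have hK0 : (0 : ℝ) < K := by exact_mod_cast hK
  obtain ⟨hA, hB⟩ := hI
  have hr0 : (0 : ℝ) ≤ r := Nat.cast_nonneg r
  refine ⟨fun i S T => ?_, fun S => ?_⟩
  · have e1 := dens_near hN hK h1 h2 (fun n => cardFactors (n + h i) / s ∈ S ∧ rest h i n ∈ T)
    have e2 := dens_near hN hK h1 h2 (fun n => cardFactors n / s ∈ S)
    have e3 := dens_near hN hK h1 h2 (fun n => rest h i n ∈ T)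
    have e4 := dens_mem N (fun n => rest h i n ∈ T)
    have e5 := dens_mem N' (fun n => cardFactors n / s ∈ S)
    have e6 := hA i S T
    generalize PowerSavingIndependence.dens N (fun n => cardFactors (n + h i) / s ∈ S ∧ rest h i n ∈ T) = x at *
    generalize PowerSavingIndependence.dens N' (fun n => cardFactors (n + h i) / s ∈ S ∧ rest h i n ∈ T) = x' at *
    generalize PowerSavingIndependence.dens N (fun n => cardFactors n / s ∈ S) = y at *
    generalize PowerSavingIndependence.dens N' (fun n => cardFactors n / s ∈ S) = y' at *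
    generalize PowerSavingIndependence.dens N (fun n => rest h i n ∈ T) = z at *
    generalize PowerSavingIndependence.dens N' (fun n => rest h i n ∈ T) = z' at *
    have e7 : x - y * z = (x - x') + (x' - y' * z') + (y' * (z' - z) + (y' - y) * z) := by ring
    have e8 : |y' * (z' - z)| ≤ 1 / K := by
      rw [abs_mul, abs_of_nonneg e5.1, abs_sub_comm]
      calc y' * |z - z'| ≤ 1 * (1 / K) := mul_le_mul e5.2 e3 (abs_nonneg _) zero_le_one
        _ = 1 / K := one_mul _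
    have e9 : |(y' - y) * z| ≤ 1 / K := by
      rw [abs_mul, abs_of_nonneg e4.1, abs_sub_comm]
      calc |y - y'| * z ≤ (1 / K) * 1 := mul_le_mul e2 e4.2 e4.1 (by positivity)
        _ = 1 / K := mul_one _
    have e10 : |x - y * z| ≤ 1 / K + ε + (1 / K + 1 / K) := by
      rw [e7]
      refine (abs_add_le _ _).trans (add_le_add ((abs_add_le _ _).trans (add_le_add e1 e6)) ?_)
      exact (abs_add_le _ _).trans (add_le_add e8 e9)
    have e11 : (1 : ℝ) / K + ε + (1 / K + 1 / K) ≤ ε + (r + 4) / K := by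
      have : ((r : ℝ) + 4) / K = r * (1 / K) + 4 * (1 / K) := by ring
      rw [this]
      have h3 : 0 ≤ (r : ℝ) * (1 / K) := by positivity
      have h4 : 0 ≤ (1 : ℝ) / K := by positivity
      linarith
    exact e10.trans e11
  · have e1 := dens_near hN hK h1 h2 (fun n => ∀ i, cardFactors (n + h i) / s ∈ S i)
    have e2 := prod_close (univ : Finset (Fin (r + 1)))
      (fun i => PowerSavingIndependence.dens N' (fun n => cardFactors n / s ∈ S i)) (fun i => PowerSavingIndependence.dens N (fun n => cardFactors n / s ∈ S i))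
      (η := 1 / K) (fun i _ => dens_mem N' _) (fun i _ => dens_mem N _)
      (fun i _ => by rw [abs_sub_comm]; exact dens_near hN hK h1 h2 _)
    rw [card_univ, Fintype.card_fin] at e2
    have e6 := hB S
    generalize PowerSavingIndependence.dens N (fun n => ∀ i, cardFactors (n + h i) / s ∈ S i) = x at *
    generalize PowerSavingIndependence.dens N' (fun n => ∀ i, cardFactors (n + h i) / s ∈ S i) = x' at *
    generalize (∏ i, PowerSavingIndependence.dens N (fun n => cardFactors n / s ∈ S i)) = y at *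
    generalize (∏ i, PowerSavingIndependence.dens N' (fun n => cardFactors n / s ∈ S i)) = y' at *
    have e7 : x - y = (x - x') + (x' - y') + (y' - y) := by ring
    have e10 : |x - y| ≤ 1 / K + ε + ((r + 1 : ℕ) : ℝ) * (1 / K) := by
      rw [e7]
      exact (abs_add_le _ _).trans (add_le_add ((abs_add_le _ _).trans (add_le_add e1 e6)) e2)
    refine e10.trans ?_
    have : ((r : ℝ) + 4) / K = r * (1 / K) + 4 * (1 / K) := by ring
    rw [this]
    have h4 : 0 ≤ (1 : ℝ) / K := by positivity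
    push_cast
    linarith

/-! ### The exceptional tuples -/

open Classical in
/-- the number of the tuples which are exceptional for some scale -/
lemma few_all {r : ℕ} {A : ℕ} {δ κ : ℝ} (hδ : 0 < δ) (hδ1 : δ ≤ 1 / 2) (hκδ : κ < δ) {ε : ℝ} (hε : 0 < ε) {N₀ : ℕ}
    (h : ∀ N : ℕ, N₀ ≤ N → ∀ z : ℕ, z ≤ (A + 1) * N → (N : ℝ) ^ (1 - δ) ≤ z →
      (((Bx (r + 1) z).filter (fun x => ¬ Independent 2 (ε / 2) N x)).card : ℝ) ≤
        (z : ℝ) ^ (r + 1) * (N : ℝ) ^ (-δ)) :
    ∃ C : ℝ, ∀ Y : ℕ, 1 ≤ Y → (((Bx (r + 1) Y).filter (fun x => ∃ N : ℕ, Scale A κ N x ∧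
      ¬ Independent 2 ε N x)).card : ℝ) ≤ C * (Y : ℝ) ^ (((r + 1 : ℕ) : ℝ) - δ / 2) := by
  obtain ⟨K, hK⟩ : ∃ K : ℕ, K = ⌈2 * ((r : ℝ) + 4) / ε⌉₊ + 1 := ⟨_, rfl⟩
  have hK1 : 1 ≤ K := by omega
  have hK0 : (0 : ℝ) < K := by exact_mod_cast hK1
  have hKε : ε / 2 + ((r : ℝ) + 4) / K ≤ ε := by
    have h1 : 2 * ((r : ℝ) + 4) / ε ≤ K := by
      refine (Nat.le_ceil _).trans ?_
      rw [hK]
      push_cast
      linarith
    have h2 : ((r : ℝ) + 4) / K ≤ ε / 2 := by
      rw [div_le_iff₀ hK0]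
      rw [div_le_iff₀ hε] at h1
      linarith
    linarith
  obtain ⟨C, hC⟩ := grid_sparse K (c := δ / 4) (by positivity)
  -- the threshold for the change of the scale
  obtain ⟨B, hB⟩ : ∃ B : ℕ, ∀ N : ℕ, B ≤ N → 1 ≤ N → (2 : ℝ) ≤ (N : ℝ) ^ (δ - κ) := by
    have hc : 0 < δ - κ := by linarith
    refine ⟨⌈(2 : ℝ) ^ (1 / (δ - κ))⌉₊, fun N hN hN1 => ?_⟩
    have h1 : (2 : ℝ) ^ (1 / (δ - κ)) ≤ N := (Nat.le_ceil _).trans (by exact_mod_cast hN)
    have h2 := Real.rpow_le_rpow (by positivity) h1 hc.le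
    rwa [← Real.rpow_mul (by norm_num), one_div_mul_cancel hc.ne', Real.rpow_one] at h2
  obtain ⟨T, hT⟩ : ∃ T : ℕ, T = max (max N₀ B) K + 1 := ⟨_, rfl⟩
  refine ⟨C * ((A + 1 : ℕ) : ℝ) ^ (r + 1) + ((A * T : ℕ) : ℝ) ^ (r + 1), fun Y hY => ?_⟩
  have hY1 : (1 : ℝ) ≤ Y := by exact_mod_cast hY
  have h3 := sparse_union (k := r + 1) (by omega) (A := A + 1) (by omega) hδ hδ1 (N₀ := N₀)
    (P := fun N x => Independent 2 (ε / 2) N x) h (S := grid K) (C := C) hC Y hY
  have hsub : (Bx (r + 1) Y).filter (fun x => ∃ N : ℕ, Scale A κ N x ∧ ¬ Independent 2 ε N x) ⊆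
      (Bx (r + 1) Y).filter (fun x => ∃ N : ℕ, N₀ ≤ N ∧ 1 ≤ N ∧ N ∈ grid K ∧
        (∀ i, x i ≤ (A + 1) * N ∧ (N : ℝ) ^ (1 - δ) ≤ x i) ∧ ¬ Independent 2 (ε / 2) N x) ∪
      Bx (r + 1) (A * T) := by
    intro x hx
    rw [mem_filter] at hx
    obtain ⟨hb, N, hsc, hI⟩ := hx
    rw [mem_union]
    have hb' : ∀ i, 1 ≤ x i ∧ x i ≤ Y := fun i => mem_Icc.1 (Fintype.mem_piFinset.1 hb i)
    rcases Nat.lt_or_ge N T with hNT | hNT
    · right
      unfold Bx
      rw [Fintype.mem_piFinset]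
      intro i
      rw [mem_Icc]
      exact ⟨(hb' i).1, (hsc i).1.trans (Nat.mul_le_mul_left A hNT.le)⟩
    · left
      rw [mem_filter]
      refine ⟨hb, ?_⟩
      have hN₀ : N₀ ≤ N := by
        have := le_max_left N₀ B
        have := le_max_left (max N₀ B) K
        omega
      have hNB : B ≤ N := by
        have := le_max_right N₀ B
        have := le_max_left (max N₀ B) K
        omega
      have hNK : K ≤ N := by
        have := le_max_right (max N₀ B) K
        omega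
      have hN1 : 1 ≤ N := by omega
      have hN1' : (1 : ℝ) ≤ N := by exact_mod_cast hN1
      have hN0' : (0 : ℝ) < N := by linarith
      obtain ⟨N', hg, h4, h5⟩ := grid_near hK1 hNK
      refine ⟨N', by omega, by omega, hg, fun i => ⟨?_, ?_⟩, fun h6 => hI ?_⟩
      · calc x i ≤ A * N := (hsc i).1
          _ ≤ (A + 1) * N' := Nat.mul_le_mul (Nat.le_succ A) h4
      · refine le_trans ?_ (hsc i).2
        have h6 : (N' : ℝ) ≤ 2 * N := by
          have hK1' : (1 : ℝ) ≤ K := by exact_mod_cast hK1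
          have h4' : (N : ℝ) ≤ N' := by exact_mod_cast h4
          nlinarith
        calc (N' : ℝ) ^ (1 - δ) ≤ (2 * (N : ℝ)) ^ (1 - δ) :=
              Real.rpow_le_rpow (Nat.cast_nonneg _) h6 (by linarith)
          _ = (2 : ℝ) ^ (1 - δ) * (N : ℝ) ^ (1 - δ) := Real.mul_rpow (by norm_num) hN0'.le
          _ ≤ (N : ℝ) ^ (δ - κ) * (N : ℝ) ^ (1 - δ) := by
              apply mul_le_mul_of_nonneg_right _ (by positivity)
              refine le_trans ?_ (hB N hNB hN1)
              calc (2 : ℝ) ^ (1 - δ) ≤ (2 : ℝ) ^ (1 : ℝ) :=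
                    Real.rpow_le_rpow_of_exponent_le (by norm_num) (by linarith)
                _ = 2 := Real.rpow_one 2
          _ = (N : ℝ) ^ (1 - κ) := by
              rw [← Real.rpow_add hN0']
              congr 1
              ring
      · have h7 := indep_near hN1 hK1 h4 h5 h6
        refine ⟨fun i S T => (h7.1 i S T).trans hKε, fun S => (h7.2 S).trans hKε⟩
  have hcard : ((Bx (r + 1) (A * T)).card : ℝ) = ((A * T : ℕ) : ℝ) ^ (r + 1) := by
    unfold Bx
    rw [Fintype.card_piFinset]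
    simp
  have hYs : (1 : ℝ) ≤ (Y : ℝ) ^ (((r + 1 : ℕ) : ℝ) - δ / 2) := by
    apply Real.one_le_rpow hY1
    push_cast
    have : (0 : ℝ) ≤ r := Nat.cast_nonneg r
    linarith
  calc _ ≤ (((Bx (r + 1) Y).filter (fun x => ∃ N : ℕ, N₀ ≤ N ∧ 1 ≤ N ∧ N ∈ grid K ∧
        (∀ i, x i ≤ (A + 1) * N ∧ (N : ℝ) ^ (1 - δ) ≤ x i) ∧ ¬ Independent 2 (ε / 2) N x)).card : ℝ) +
        ((Bx (r + 1) (A * T)).card : ℝ) := by
        have := (card_le_card hsub).trans (card_union_le _ _)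
        exact_mod_cast this
    _ ≤ C * ((A + 1 : ℕ) : ℝ) ^ (r + 1) * (Y : ℝ) ^ (((r + 1 : ℕ) : ℝ) - δ / 2) +
        ((A * T : ℕ) : ℝ) ^ (r + 1) * (Y : ℝ) ^ (((r + 1 : ℕ) : ℝ) - δ / 2) := by
        rw [hcard]
        refine add_le_add h3 ?_
        exact le_mul_of_one_le_right (by positivity) hYs
    _ = _ := by ring

open Classical in
/-- the number of the tuples which are exceptional for some scale of a sparse set -/
lemma few_sparse {r : ℕ} {A : ℕ} {δ κ : ℝ} (hδ : 0 < δ) (hδ1 : δ ≤ 1 / 2) (hκδ : κ ≤ δ / 4) {ε : ℝ}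
    {N₀ : ℕ} {Q : ℕ → Prop}
    (h : ∀ N : ℕ, N₀ ≤ N → ∀ z : ℕ, z ≤ (A + 1) * N → (N : ℝ) ^ (1 - δ) ≤ z →
      (((Bx (r + 1) z).filter (fun x => ¬ (Q N → Independent 1 ε N x))).card : ℝ) ≤
        (z : ℝ) ^ (r + 1) * (N : ℝ) ^ (-δ)) {S : Set ℕ} (hS : Sparse κ S) :
    ∃ C : ℝ, ∀ Y : ℕ, 1 ≤ Y → (((Bx (r + 1) Y).filter (fun x => ∃ N ∈ S, Q N ∧ Scale A κ N x ∧
      ¬ Independent 1 ε N x)).card : ℝ) ≤ C * (Y : ℝ) ^ (((r + 1 : ℕ) : ℝ) - δ / 2) := by
  obtain ⟨C', hC'⟩ := hS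
  have hC : ∀ X : ℕ, 1 ≤ X → (((Icc 1 X).filter (fun N => N ∈ S)).card : ℝ) ≤ |C'| * (X : ℝ) ^ (δ / 4) := by
    intro X hX
    have hX1 : (1 : ℝ) ≤ X := by exact_mod_cast hX
    have h1 : {N : ℕ | 1 ≤ N ∧ N ≤ X ∧ N ∈ S} = ((Icc 1 X).filter (fun N => N ∈ S) : Finset ℕ) := by
      ext N
      simp only [Finset.coe_filter, Finset.mem_Icc, Set.mem_ofPred_eq]
      tauto
    have h2 := hC' X hX
    rw [h1, Set.ncard_coe_finset] at h2
    refine h2.trans ?_
    calc C' * (X : ℝ) ^ κ ≤ |C'| * (X : ℝ) ^ κ := mul_le_mul_of_nonneg_right (le_abs_self _) (by positivity)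
      _ ≤ |C'| * (X : ℝ) ^ (δ / 4) :=
          mul_le_mul_of_nonneg_left (Real.rpow_le_rpow_of_exponent_le hX1 hκδ) (abs_nonneg _)
  obtain ⟨T, hT⟩ : ∃ T : ℕ, T = N₀ + 1 := ⟨_, rfl⟩
  refine ⟨|C'| * ((A + 1 : ℕ) : ℝ) ^ (r + 1) + ((A * T : ℕ) : ℝ) ^ (r + 1), fun Y hY => ?_⟩
  have hY1 : (1 : ℝ) ≤ Y := by exact_mod_cast hY
  have h3 := sparse_union (k := r + 1) (by omega) (A := A + 1) (by omega) hδ hδ1 (N₀ := N₀)
    (P := fun N x => Q N → Independent 1 ε N x) (by intro N h1 z h2 h3; convert h N h1 z h2 h3) (S := S) (C := |C'|)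
    (by intro X hX; convert hC X hX) Y hY
  have hsub : (Bx (r + 1) Y).filter (fun x => ∃ N ∈ S, Q N ∧ Scale A κ N x ∧ ¬ Independent 1 ε N x) ⊆
      (Bx (r + 1) Y).filter (fun x => ∃ N : ℕ, N₀ ≤ N ∧ 1 ≤ N ∧ N ∈ S ∧
        (∀ i, x i ≤ (A + 1) * N ∧ (N : ℝ) ^ (1 - δ) ≤ x i) ∧ ¬ (Q N → Independent 1 ε N x)) ∪
      Bx (r + 1) (A * T) := by
    intro x hx
    rw [mem_filter] at hx
    obtain ⟨hb, N, hNS, hQ, hsc, hI⟩ := hx
    rw [mem_union]
    have hb' : ∀ i, 1 ≤ x i ∧ x i ≤ Y := fun i => mem_Icc.1 (Fintype.mem_piFinset.1 hb i)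
    rcases Nat.lt_or_ge N T with hNT | hNT
    · right
      unfold Bx
      rw [Fintype.mem_piFinset]
      intro i
      rw [mem_Icc]
      exact ⟨(hb' i).1, (hsc i).1.trans (Nat.mul_le_mul_left A hNT.le)⟩
    · left
      rw [mem_filter]
      have hN1' : (1 : ℝ) ≤ N := by
        have : 1 ≤ N := by omega
        exact_mod_cast this
      refine ⟨hb, N, by omega, by omega, hNS, fun i => ⟨?_, ?_⟩, fun h6 => hI (h6 hQ)⟩
      · exact (hsc i).1.trans (Nat.mul_le_mul_right N (Nat.le_succ A))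
      · exact (Real.rpow_le_rpow_of_exponent_le hN1' (by linarith)).trans (hsc i).2
  have hcard : ((Bx (r + 1) (A * T)).card : ℝ) = ((A * T : ℕ) : ℝ) ^ (r + 1) := by
    unfold Bx
    rw [Fintype.card_piFinset]
    simp
  have hYs : (1 : ℝ) ≤ (Y : ℝ) ^ (((r + 1 : ℕ) : ℝ) - δ / 2) := by
    apply Real.one_le_rpow hY1
    push_cast
    have : (0 : ℝ) ≤ r := Nat.cast_nonneg r
    linarith
  calc _ ≤ (((Bx (r + 1) Y).filter (fun x => ∃ N : ℕ, N₀ ≤ N ∧ 1 ≤ N ∧ N ∈ S ∧
        (∀ i, x i ≤ (A + 1) * N ∧ (N : ℝ) ^ (1 - δ) ≤ x i) ∧ ¬ (Q N → Independent 1 ε N x))).card : ℝ) +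
        ((Bx (r + 1) (A * T)).card : ℝ) := by
        have := (card_le_card hsub).trans (card_union_le _ _)
        exact_mod_cast this
    _ ≤ |C'| * ((A + 1 : ℕ) : ℝ) ^ (r + 1) * (Y : ℝ) ^ (((r + 1 : ℕ) : ℝ) - δ / 2) +
        ((A * T : ℕ) : ℝ) ^ (r + 1) * (Y : ℝ) ^ (((r + 1 : ℕ) : ℝ) - δ / 2) := by
        rw [hcard]
        refine add_le_add h3 ?_
        exact le_mul_of_one_le_right (by positivity) hYs
    _ = _ := by ring

/-- **Independence for shifts near values of multiplicative functions, at all scales.** Let `A` and `r` be integers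
and `ε > 0`. There are `E ≥ 1`, `D ≥ 6 E + 2` and `κ > 0` such that arbitrarily large scales are not exceptional, and
for all `f_0, ..., f_r` which are `LinearAtPrimes`, all `G_0, ..., G_r` which are expanding with exponent `1 + κ` and
all `U`:

(1) for all large `M` and all tuples `m` with `1 ≤ m_i ≤ M` but `M ^ (r + 1) / (log M) ^ U`: for EVERY tuple `h` of
shifts `h_i ≥ 1` with `|h_i - G_i(f_i(m_i))| ≤ f_i(m_i) ^ κ` and EVERY scale `N` with `N ^ (1 - κ) ≤ h_i ≤ A N` for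
all `i`, the integer part of `Ω(n + h_i) / 2` is independent, up to `ε`, of all the events that depend on the vector
of the `Ω(n + h_j)`, `j ≠ i`, and is distributed as the integer part of `Ω(n) / 2`, `1 ≤ n ≤ N`;

(2) for every set `S` with at most `C X ^ κ` elements up to `X` the same holds for `Ω(n + h_i)` itself, for every
scale `N` in `S` which is not exceptional.

Euler's function, the sum of the divisors and the identity are `LinearAtPrimes`, and `v ↦ α v^d` is expanding for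
`α > 0`, `d ≥ 1`. -/
theorem result :
    (∀ (A r : ℕ) (ε : ℝ), 0 < ε → ∃ E D : ℕ, 1 ≤ E ∧ 6 * E + 2 ≤ D ∧
      (∀ N₁ : ℕ, ∃ N : ℕ, N₁ ≤ N ∧ NonExceptional E D N) ∧ ∃ κ : ℝ, 0 < κ ∧
      ∀ f : Fin (r + 1) → ℕ → ℕ, (∀ i, LinearAtPrimes (f i)) →
      ∀ G : Fin (r + 1) → ℕ → ℝ, (∀ i, Expanding (G i) (1 + κ)) → ∀ U : ℕ,
      (∃ M₀ : ℕ, ∀ M : ℕ, M₀ ≤ M →
        (Set.ncard {m : Fin (r + 1) → ℕ | (∀ i, 1 ≤ m i ∧ m i ≤ M) ∧ ¬ ∀ h : Fin (r + 1) → ℕ, Near f G κ m h →
          ∀ N : ℕ, Scale A κ N h → Independent 2 ε N h} : ℝ) ≤ (M : ℝ) ^ (r + 1) / Real.log M ^ U) ∧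
      ∀ S : Set ℕ, Sparse κ S → ∃ M₀ : ℕ, ∀ M : ℕ, M₀ ≤ M →
        (Set.ncard {m : Fin (r + 1) → ℕ | (∀ i, 1 ≤ m i ∧ m i ≤ M) ∧ ¬ ∀ h : Fin (r + 1) → ℕ, Near f G κ m h →
          ∀ N ∈ S, NonExceptional E D N → Scale A κ N h → Independent 1 ε N h} : ℝ) ≤
        (M : ℝ) ^ (r + 1) / Real.log M ^ U) ∧
    LinearAtPrimes Nat.totient ∧ LinearAtPrimes (fun m => ∑ d ∈ m.divisors, d) ∧
    LinearAtPrimes (fun m => m) ∧
    ∀ α d : ℝ, 0 < α → 1 ≤ d → Expanding (fun v => α * (v : ℝ) ^ d) d := by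
  classical
  refine ⟨?_, ?_, ?_, ?_, ?_⟩
  · intro A r ε hε
    -- two applications with the same `ε / 2`
    obtain ⟨E, D, hE, hD, δ, hδ, ⟨N₀, hN₀⟩, hlarge⟩ :=
      Pool.Agent.Results.MP_e0aac0_nt.PowerSavingIndependence.result (A + 1) r (ε / 2) (by positivity)
    obtain ⟨δ', hδ'⟩ : ∃ δ' : ℝ, δ' = min δ (1 / 2) := ⟨_, rfl⟩
    have hδ'0 : 0 < δ' := by rw [hδ']; exact lt_min hδ (by norm_num)
    have hδ'1 : δ' ≤ 1 / 2 := by rw [hδ']; exact min_le_right _ _
    have hδ'δ : δ' ≤ δ := by rw [hδ']; exact min_le_left _ _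
    have hr1 : (1 : ℝ) ≤ ((r + 1 : ℕ) : ℝ) := by push_cast; linarith [(Nat.cast_nonneg r : (0 : ℝ) ≤ r)]
    obtain ⟨κ, hκ⟩ : ∃ κ : ℝ, κ = δ' / (8 * ((r + 1 : ℕ) : ℝ)) := ⟨_, rfl⟩
    have hκ0 : 0 < κ := by rw [hκ]; positivity
    have hκ8 : κ * ((r + 1 : ℕ) : ℝ) = δ' / 8 := by
      rw [hκ]
      field_simp
    have hκδ : κ ≤ δ' / 8 := by nlinarith
    have hnum : ∀ (z : ℕ) (F : (Fin (r + 1) → ℕ) → Prop),
        num (Fintype.piFinset fun _ : Fin (r + 1) => Icc 1 z) F = (((Bx (r + 1) z).filter F).card : ℝ) := by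
      intro z F
      unfold num Bx
      congr!
    have hprod : ∀ z : ℕ, (∏ _i : Fin (r + 1), (z : ℝ)) = (z : ℝ) ^ (r + 1) := by
      intro z
      rw [prod_const, card_univ, Fintype.card_fin]
    have hpow : ∀ N : ℕ, 1 ≤ N → (N : ℝ) ^ (-δ) ≤ (N : ℝ) ^ (-δ') := by
      intro N hN
      have hN1 : (1 : ℝ) ≤ N := by exact_mod_cast hN
      exact Real.rpow_le_rpow_of_exponent_le hN1 (by linarith)
    have hpow' : ∀ N : ℕ, 1 ≤ N → (N : ℝ) ^ (1 - δ) ≤ (N : ℝ) ^ (1 - δ') := by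
      intro N hN
      have hN1 : (1 : ℝ) ≤ N := by exact_mod_cast hN
      exact Real.rpow_le_rpow_of_exponent_le hN1 (by linarith)
    have hd1 : (1 + κ) * (((r + 1 : ℕ) : ℝ) - δ' / 2) + ((r + 1 : ℕ) : ℝ) * κ < ((r + 1 : ℕ) : ℝ) := by
      nlinarith
    have hs0 : 0 ≤ ((r + 1 : ℕ) : ℝ) - δ' / 2 := by linarith
    refine ⟨E, D, hE, hD, hlarge, κ, hκ0, fun f hf G hG U => ⟨?_, fun S hS => ?_⟩⟩
    · -- (1)
      have h1 : ∀ N : ℕ, N₀ + 1 ≤ N → ∀ z : ℕ, z ≤ (A + 1) * N → (N : ℝ) ^ (1 - δ') ≤ z →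
          (((Bx (r + 1) z).filter (fun x => ¬ Independent 2 (ε / 2) N x)).card : ℝ) ≤
            (z : ℝ) ^ (r + 1) * (N : ℝ) ^ (-δ') := by
        intro N hN z hz1 hz2
        obtain ⟨h2, -⟩ := hN₀ N (by omega) (fun _ => z) (fun _ => ⟨hz1, (hpow' N (by omega)).trans hz2⟩)
        rw [hprod, hnum] at h2
        refine le_trans (le_of_eq ?_) (h2.trans (mul_le_mul_of_nonneg_left (hpow N (by omega)) (by positivity)))
        congr!
      obtain ⟨C, hC⟩ := few_all (A := A) (κ := κ) hδ'0 hδ'1 (by linarith) hε h1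
      obtain ⟨M₀, hM₀⟩ := keep_near_tuples (k := r + 1) (fun x => ∃ N : ℕ, Scale A κ N x ∧
        ¬ Independent 2 ε N x) hs0 ⟨C, hC⟩ (F := f) (fun i => ⟨(hf i).mul, (hf i).pos, (hf i).growth, (hf i).prime⟩)
        (G := G) (d := 1 + κ) (fun i => ⟨(hG i).one_le, (hG i).step, (hG i).growth⟩) (by linarith) hκ0.le
        (by linarith) hd1 U
      refine ⟨M₀, fun M hM => ?_⟩
      refine le_trans (le_of_eq ?_) (hM₀ M hM)
      congr 2
      ext m
      simp only [Set.mem_ofPred_eq, Near, not_exists, not_and, not_not]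
    · -- (2)
      have h1 : ∀ N : ℕ, N₀ + 1 ≤ N → ∀ z : ℕ, z ≤ (A + 1) * N → (N : ℝ) ^ (1 - δ') ≤ z →
          (((Bx (r + 1) z).filter (fun x => ¬ (NonExceptional E D N → Independent 1 ε N x))).card : ℝ) ≤
            (z : ℝ) ^ (r + 1) * (N : ℝ) ^ (-δ') := by
        intro N hN z hz1 hz2
        obtain ⟨-, h2⟩ := hN₀ N (by omega) (fun _ => z) (fun _ => ⟨hz1, (hpow' N (by omega)).trans hz2⟩)
        by_cases hne : NonExceptional E D N
        · have h3 : (((Bx (r + 1) z).filter (fun x => ¬ Independent 1 (ε / 2) N x)).card : ℝ) ≤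
              (z : ℝ) ^ (r + 1) * (N : ℝ) ^ (-δ) := by
            have h4 := h2 hne
            rw [hprod, hnum] at h4
            refine le_trans (le_of_eq ?_) h4
            congr!
          refine le_trans (Nat.cast_le.2 (card_le_card ?_))
            (h3.trans (mul_le_mul_of_nonneg_left (hpow N (by omega)) (by positivity)))
          intro x hx
          rw [mem_filter] at hx ⊢
          refine ⟨hx.1, fun h4 => hx.2 fun _ => ?_⟩
          exact ⟨fun i S T => (h4.1 i S T).trans (by linarith), fun S => (h4.2 S).trans (by linarith)⟩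
        · have h4 : (Bx (r + 1) z).filter (fun x => ¬ (NonExceptional E D N → Independent 1 ε N x)) = ∅ := by
            rw [filter_eq_empty_iff]
            intro x _ h5
            exact h5 fun h6 => absurd h6 hne
          rw [h4, card_empty, Nat.cast_zero]
          positivity
      obtain ⟨C, hC⟩ := few_sparse (A := A) (κ := κ) hδ'0 hδ'1 (by linarith) h1 hS
      obtain ⟨M₀, hM₀⟩ := keep_near_tuples (k := r + 1) (fun x => ∃ N ∈ S, NonExceptional E D N ∧ Scale A κ N x ∧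
        ¬ Independent 1 ε N x) hs0 ⟨C, hC⟩ (F := f) (fun i => ⟨(hf i).mul, (hf i).pos, (hf i).growth, (hf i).prime⟩)
        (G := G) (d := 1 + κ) (fun i => ⟨(hG i).one_le, (hG i).step, (hG i).growth⟩) (by linarith) hκ0.le
        (by linarith) hd1 U
      refine ⟨M₀, fun M hM => ?_⟩
      refine le_trans (le_of_eq ?_) (hM₀ M hM)
      congr 2
      ext m
      simp only [Set.mem_ofPred_eq, Near, not_exists, not_and, not_not]
  · have h := Pool.Agent.N733.TG.lm_totient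
    exact ⟨h.mul, h.pos, h.growth, h.prime⟩
  · have h := Pool.Agent.N733.TG.lm_sigma
    exact ⟨h.mul, h.pos, h.growth, h.prime⟩
  · have h := Pool.Agent.N760.IT.lm_id
    exact ⟨h.mul, h.pos, h.growth, h.prime⟩
  · intro α d hα hd
    have h := Pool.Agent.N733.TG.expanding_pow hα hd
    exact ⟨h.one_le, h.step, h.growth⟩

end Pool.Agent.Results.MP_e0aac0_nt.MultiplicativeShifts
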