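import Pool.Agent.J4.H65.ShortOm2

/-!
# Independence of the values of `Ω` for almost all short shifts, at every scale

The shifts `0, 1, ..., k - 1` of Q1 of MP_e0aac0_nt are replaced by almost all shifts `h_1, ..., h_k` in an interval
`[1, H]` of bounded length (or in a family of integers up to `H`, such as the primes or the values of a polynomial). From
the starting files: the theorem of Matomäki, Radziwiłł and Tao for functions of `Ω` (`Pool.Agent.TH575.OM`), and the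
families of shifts with small energy (`Pool.Agent.TH445.OI`).
-/

set_option autoImplicit false

namespace Pool.Agent.Results.MP_e0aac0_nt.ShortShifts

open Finset
open ArithmeticFunction (cardFactors)

/-- The number of solutions of `s (m 1) + ... + s (m p) = s (m' 1) + ... + s (m' p)` with all `m i`, `m' i` in
`{1, ..., x}`. -/
def energy (p x : ℕ) (s : ℕ → ℕ) : ℕ :=
  (((Fintype.piFinset fun _ : Fin p => Icc 1 x) ×ˢ (Fintype.piFinset fun _ : Fin p => Icc 1 x)).filter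
    (fun q => ∑ i, s (q.1 i) = ∑ i, s (q.2 i))).card

/-- The family `s 1, ..., s x` of shifts lies in `[0, B H]` and for some `p ≤ P` the number of solutions of
`s (m 1) + ... + s (m p) = s (m' 1) + ... + s (m' p)` is at most `C x ^ (2 p) / H`, which is the smallest possible
order of magnitude. -/
def Spread (H B P : ℕ) (C : ℝ) (x : ℕ) (s : ℕ → ℕ) : Prop :=
  (∀ m ∈ Icc 1 x, s m ≤ B * H) ∧ ∃ p ≤ P, (energy p x s : ℝ) * H ≤ C * (x : ℝ) ^ (2 * p)

/-- The mean of `a(Ω(n))` over `1 ≤ n ≤ N`. -/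
noncomputable def mean (a : ℕ → ℂ) (N : ℕ) : ℂ := (∑ n ∈ Icc 1 N, a (cardFactors n)) / (N : ℂ)

open Classical in
/-- The proportion of the `n` with `1 ≤ n ≤ N` that have the property `F`. -/
noncomputable def dens (N : ℕ) (F : ℕ → Prop) : ℝ := (((Icc 1 N).filter F).card : ℝ) / N

lemma energy_eq (p x : ℕ) (s : ℕ → ℕ) : energy p x s = Pool.Agent.H373R2.T7.energy p x (fun m => (s m : ℤ)) := by
  unfold energy Pool.Agent.H373R2.T7.energy
  congr 1
  apply filter_congr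
  intro q _
  rw [← Nat.cast_sum, ← Nat.cast_sum, Nat.cast_inj]

lemma spread_iff (N B P : ℕ) (C : ℝ) (x : ℕ) (s : ℕ → ℕ) :
    Spread N B P C x s ↔ ∃ p ≤ P, Pool.Agent.TH445.OI.Good N B p C x s := by
  unfold Spread Pool.Agent.TH445.OI.Good
  simp only [energy_eq]
  constructor
  · rintro ⟨h1, p, hp, h2⟩
    exact ⟨p, hp, h1, h2⟩
  · rintro ⟨p, hp, h1, h2⟩
    exact ⟨h1, p, hp, h2⟩

/-- the theorem for families -/
theorem main (k P B Q : ℕ) (C ε : ℝ) (hε : 0 < ε) : ∃ H₀ N₀ : ℕ, ∀ N : ℕ, N₀ ≤ N → ∀ H : Fin k → ℕ,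
    (∀ i, H₀ ≤ H i ∧ H i ≤ N) → ∀ (x : Fin k → ℕ) (s : Fin k → ℕ → ℕ), (∀ i, Spread (H i) B P C (x i) (s i)) →
    ∀ q : Fin k → ℕ, (∀ i, 1 ≤ q i ∧ q i ≤ Q) → ∀ g : ℕ → ℂ, (∀ n, ‖g n‖ ≤ 1) →
    ∀ a : Fin k → ℕ → ℂ, (∀ i l, ‖a i l‖ ≤ 1) →
    ∃ E ⊆ Fintype.piFinset (fun i => Icc 1 (x i)), (E.card : ℝ) ≤ ε * ∏ i, (x i : ℝ) ∧
      ∀ m ∈ Fintype.piFinset (fun i => Icc 1 (x i)), m ∉ E → ∀ y ≤ N,
        ‖∑ n ∈ Icc 1 y, g n * (∏ i, a i (cardFactors (q i * n + s i (m i))) - ∏ i, mean (a i) N)‖ ≤ ε * N := by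
  obtain ⟨H₀, N₀, h⟩ := Pool.Agent.J4.H65.SO.fam B Q P C k ε hε
  refine ⟨H₀, N₀, fun N hN H hH x s hs q hq g hg a ha => ?_⟩
  choose p hp hgood using fun i => (spread_iff _ _ _ _ _ _).1 (hs i)
  exact h N hN H hH p hp x s hgood g hg a ha q hq

lemma ind_prod {k r : ℕ} (c : ℕ → Fin r) (j : Fin k → Fin r) (h : Fin k → ℕ) (n : ℕ) :
    ∏ i, (if c (cardFactors (1 * n + h i)) = j i then (1 : ℂ) else 0) =
      if ∀ i, c (cardFactors (n + h i)) = j i then 1 else 0 := by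
  simp only [one_mul]
  rw [Fintype.prod_ite_zero]
  simp

/-- the sum of Q1 for finitely many classes of values -/
theorem coarse (k r R : ℕ) (ε : ℝ) (hε : 0 < ε) : ∃ H₀ N₀ : ℕ, ∀ N : ℕ, N₀ ≤ N → ∀ H : ℕ, H₀ ≤ H → H ≤ N →
    ∀ (f : ℕ → Fin R) (c : ℕ → Fin r), ∃ E ⊆ Fintype.piFinset (fun _ : Fin k => Icc 1 H),
      (E.card : ℝ) ≤ ε * (H : ℝ) ^ k ∧ ∀ h ∈ Fintype.piFinset (fun _ : Fin k => Icc 1 H), h ∉ E →
        ∑ u : Fin R, ∑ j : Fin k → Fin r, |dens N (fun n => f n = u ∧ ∀ i, c (cardFactors (n + h i)) = j i) -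
          dens N (fun n => f n = u) * ∏ i, dens N (fun n => c (cardFactors n) = j i)| ≤ ε := by
  classical
  set M : ℕ := R * r ^ k + 1 with hM
  have hM0 : (0 : ℝ) < M := by exact_mod_cast (by omega : 0 < M)
  obtain ⟨H₀, N₀, hmain⟩ := main k 1 1 1 1 (ε / M) (by positivity)
  refine ⟨H₀, N₀ + 1, fun N hN H hH hHN f c => ?_⟩
  have hN0 : (0 : ℝ) < N := by exact_mod_cast (by omega : 0 < N)
  have hN0' : (N : ℂ) ≠ 0 := by exact_mod_cast (by omega : N ≠ 0)
  have h1 : ∀ w : Fin R × (Fin k → Fin r), ∃ E ⊆ Fintype.piFinset (fun _ : Fin k => Icc 1 H),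
      (E.card : ℝ) ≤ ε / M * ∏ _i : Fin k, (H : ℝ) ∧
      ∀ m ∈ Fintype.piFinset (fun _ : Fin k => Icc 1 H), m ∉ E → ∀ y ≤ N,
        ‖∑ n ∈ Icc 1 y, (if f n = w.1 then (1 : ℂ) else 0) *
          (∏ i, (if c (cardFactors (1 * n + m i)) = w.2 i then (1 : ℂ) else 0) -
            ∏ i, mean (fun l => if c l = w.2 i then (1 : ℂ) else 0) N)‖ ≤ ε / M * N := by
    intro w
    refine hmain N (by omega) (fun _ => H) (fun _ => ⟨hH, hHN⟩) (fun _ => H) (fun _ m => m) (fun _ => ?_)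
      (fun _ => 1) (fun _ => ⟨le_rfl, le_rfl⟩) _ (fun n => ?_) (fun i l => if c l = w.2 i then (1 : ℂ) else 0) (fun i l => ?_)
    · have h2 := Pool.Agent.TH445.OI.good_all H 1 le_rfl
      rw [one_mul] at h2
      exact (spread_iff _ _ _ _ _ _).2 ⟨1, le_rfl, h2⟩
    · split_ifs <;> simp
    · split_ifs <;> simp
  choose E hE1 hE2 hE3 using h1
  refine ⟨univ.biUnion E, ?_, ?_, ?_⟩
  · intro m hm
    obtain ⟨w, _, hw⟩ := mem_biUnion.1 hm
    exact hE1 w hw
  · have h2 : ((univ.biUnion E).card : ℝ) ≤ ∑ w : Fin R × (Fin k → Fin r), ((E w).card : ℝ) := by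
      exact_mod_cast card_biUnion_le
    refine h2.trans ((sum_le_sum fun w _ => hE2 w).trans ?_)
    rw [sum_const, card_univ, Fintype.card_prod, Fintype.card_fin, Fintype.card_fun, Fintype.card_fin, Fintype.card_fin,
      prod_const, card_univ, Fintype.card_fin, nsmul_eq_mul]
    have h3 : ((R * r ^ k : ℕ) : ℝ) ≤ M := by
      rw [hM]
      push_cast
      linarith
    calc ((R * r ^ k : ℕ) : ℝ) * (ε / M * (H : ℝ) ^ k) ≤ M * (ε / M * (H : ℝ) ^ k) :=
          mul_le_mul_of_nonneg_right h3 (by positivity)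
      _ = ε * (H : ℝ) ^ k := by field_simp
  · intro h hh hhE
    have hterm : ∀ (u : Fin R) (j : Fin k → Fin r),
        |dens N (fun n => f n = u ∧ ∀ i, c (cardFactors (n + h i)) = j i) -
          dens N (fun n => f n = u) * ∏ i, dens N (fun n => c (cardFactors n) = j i)| ≤ ε / M := by
      intro u j
      have h2 := hE3 (u, j) h hh (fun hcon => hhE (mem_biUnion.2 ⟨_, mem_univ _, hcon⟩)) N le_rfl
      have e1 : ∀ n ∈ Icc 1 N, (if f n = u then (1 : ℂ) else 0) *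
          (∏ i, (if c (cardFactors (1 * n + h i)) = j i then (1 : ℂ) else 0) -
            ∏ i, mean (fun l => if c l = j i then (1 : ℂ) else 0) N) =
          (if f n = u ∧ ∀ i, c (cardFactors (n + h i)) = j i then (1 : ℂ) else 0) -
          (if f n = u then (1 : ℂ) else 0) * ∏ i, mean (fun l => if c l = j i then (1 : ℂ) else 0) N := by
        intro n _
        rw [ind_prod, mul_sub]
        congr 1
        by_cases h3 : f n = u
        · simp [h3]
        · simp [h3]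
      have e2 : ∀ (F : ℕ → Prop) [DecidablePred F],
          (∑ n ∈ Icc 1 N, if F n then (1 : ℂ) else 0) = N * ((dens N F : ℝ) : ℂ) := by
        intro F _
        unfold dens
        push_cast
        rw [← sum_filter, sum_const, nsmul_eq_mul, mul_one, mul_div_cancel₀ _ hN0']
        congr!
      have e3 : ∀ i, mean (fun l => if c l = j i then (1 : ℂ) else 0) N =
          ((dens N (fun n => c (cardFactors n) = j i) : ℝ) : ℂ) := by
        intro i
        unfold mean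
        rw [e2 (fun n => c (cardFactors n) = j i), mul_div_cancel_left₀ _ hN0']
      have e4 : ∑ n ∈ Icc 1 N, (if f n = u then (1 : ℂ) else 0) *
          (∏ i, (if c (cardFactors (1 * n + h i)) = j i then (1 : ℂ) else 0) -
            ∏ i, mean (fun l => if c l = j i then (1 : ℂ) else 0) N) =
          (N : ℂ) * (((dens N (fun n => f n = u ∧ ∀ i, c (cardFactors (n + h i)) = j i) -
          dens N (fun n => f n = u) * ∏ i, dens N (fun n => c (cardFactors n) = j i) : ℝ)) : ℂ) := by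
        rw [sum_congr rfl e1, sum_sub_distrib, ← sum_mul, e2 (fun n => f n = u ∧ ∀ i, c (cardFactors (n + h i)) = j i),
          e2 (fun n => f n = u)]
        simp only [e3]
        push_cast
        ring
      simp only at h2
      rw [e4, norm_mul, Complex.norm_natCast, Complex.norm_real, Real.norm_eq_abs] at h2
      have h5 : (N : ℝ) * |dens N (fun n => f n = u ∧ ∀ i, c (cardFactors (n + h i)) = j i) -
          dens N (fun n => f n = u) * ∏ i, dens N (fun n => c (cardFactors n) = j i)| ≤ N * (ε / M) := by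
        rw [mul_comm (N : ℝ) (ε / M)]
        exact h2
      exact le_of_mul_le_mul_left h5 hN0
    refine (sum_le_sum fun u _ => sum_le_sum fun j _ => hterm u j).trans ?_
    rw [sum_const, sum_const, card_univ, card_univ, Fintype.card_fin, Fintype.card_fun, Fintype.card_fin,
      Fintype.card_fin, nsmul_eq_mul, nsmul_eq_mul]
    have h3 : ((R : ℝ) * ((r ^ k : ℕ) : ℝ)) ≤ M := by
      rw [hM]
      push_cast
      linarith
    calc (R : ℝ) * (((r ^ k : ℕ) : ℝ) * (ε / M)) = ((R : ℝ) * ((r ^ k : ℕ) : ℝ)) * (ε / M) := by ring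
      _ ≤ M * (ε / M) := mul_le_mul_of_nonneg_right h3 (by positivity)
      _ = ε := by field_simp

theorem result :
    -- Main theorem. The functions `a_1, ..., a_k` of `Ω` and the weight `g` (an arbitrary function of `n`) are bounded by
    -- `1`, the shifts `s_i(m_i)` belong to families of size `H_i ≥ H₀`, where `H₀` does not depend on `N`. For all
    -- `(m_1, ..., m_k)` but a proportion `ε`: the sum over `n ≤ y` of `g(n) ∏ a_i(Ω(q_i n + s_i(m_i)))` is the product of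
    -- the sum of `g(n)` and the means of the `a_i(Ω(n))`, `n ≤ N`, up to `ε N`, for all `y ≤ N`.
    (∀ (k P B Q : ℕ) (C ε : ℝ), 0 < ε → ∃ H₀ N₀ : ℕ, ∀ N : ℕ, N₀ ≤ N → ∀ H : Fin k → ℕ,
      (∀ i, H₀ ≤ H i ∧ H i ≤ N) → ∀ (x : Fin k → ℕ) (s : Fin k → ℕ → ℕ), (∀ i, Spread (H i) B P C (x i) (s i)) →
      ∀ q : Fin k → ℕ, (∀ i, 1 ≤ q i ∧ q i ≤ Q) → ∀ g : ℕ → ℂ, (∀ n, ‖g n‖ ≤ 1) →
      ∀ a : Fin k → ℕ → ℂ, (∀ i l, ‖a i l‖ ≤ 1) →
      ∃ E ⊆ Fintype.piFinset (fun i => Icc 1 (x i)), (E.card : ℝ) ≤ ε * ∏ i, (x i : ℝ) ∧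
        ∀ m ∈ Fintype.piFinset (fun i => Icc 1 (x i)), m ∉ E → ∀ y ≤ N,
          ‖∑ n ∈ Icc 1 y, g n * (∏ i, a i (cardFactors (q i * n + s i (m i))) - ∏ i, mean (a i) N)‖ ≤ ε * N) ∧
    -- The sum of Q1 for the shifts `h_1, ..., h_k`, the values of `Ω` being divided arbitrarily into `r` classes, together
    -- with arbitrary side information with `R` values, for all but `ε H ^ k` of the `(h_1, ..., h_k)` in `[1, H] ^ k`,
    -- for all `H ≥ H₀`, where `H₀` depends on `k`, `r`, `R` and `ε` only.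
    (∀ (k r R : ℕ) (ε : ℝ), 0 < ε → ∃ H₀ N₀ : ℕ, ∀ N : ℕ, N₀ ≤ N → ∀ H : ℕ, H₀ ≤ H → H ≤ N →
      ∀ (f : ℕ → Fin R) (c : ℕ → Fin r), ∃ E ⊆ Fintype.piFinset (fun _ : Fin k => Icc 1 H),
        (E.card : ℝ) ≤ ε * (H : ℝ) ^ k ∧ ∀ h ∈ Fintype.piFinset (fun _ : Fin k => Icc 1 H), h ∉ E →
          ∑ u : Fin R, ∑ j : Fin k → Fin r, |dens N (fun n => f n = u ∧ ∀ i, c (cardFactors (n + h i)) = j i) -
            dens N (fun n => f n = u) * ∏ i, dens N (fun n => c (cardFactors n) = j i)| ≤ ε) ∧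
    -- Families to which the main theorem applies: all integers of `[1, B H]`,
    (∀ H B : ℕ, 1 ≤ B → Spread H B 1 1 (B * H) (fun m => m)) ∧
    -- the values `F(1), ..., F(x)` of a polynomial of degree `d` with `x ^ d` of the order of `H`,
    (∀ F : Polynomial ℤ, 1 ≤ F.natDegree → 0 < F.leadingCoeff → (∀ m : ℕ, 1 ≤ m → 0 ≤ F.eval (m : ℤ)) →
      ∀ A : ℕ, ∃ B P : ℕ, ∃ C : ℝ, ∀ H x : ℕ, H ≤ A * x ^ F.natDegree → x ^ F.natDegree ≤ A * H →
        Spread H B P C x (fun m => (F.eval (m : ℤ)).toNat)) ∧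
    -- and the primes in `(√H, H]`.
    (∃ C : ℝ, ∃ H₀ : ℕ, ∀ H : ℕ, H₀ ≤ H → ∃ (x : ℕ) (s : ℕ → ℕ),
      Set.BijOn s (Set.Icc 1 x) {p | p.Prime ∧ p ≤ H ∧ H < p ^ 2} ∧ Spread H 1 2 C x s) := by
  refine ⟨main, coarse, ?_, ?_, ?_⟩
  · intro H B hB
    exact (spread_iff _ _ _ _ _ _).2 ⟨1, le_rfl, Pool.Agent.TH445.OI.good_all H B hB⟩
  · intro F hd hl hp A
    obtain ⟨B, p, C, _, h⟩ := Pool.Agent.TH445.OI.good_poly F hd hl hp A
    exact ⟨B, p, C, fun N x h1 h2 => (spread_iff _ _ _ _ _ _).2 ⟨p, le_rfl, h N x h1 h2⟩⟩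
  · obtain ⟨C, _, N₀, _, h⟩ := Pool.Agent.TH445.OI.good_primes
    refine ⟨C, N₀, fun N hN => ?_⟩
    obtain ⟨s, h1, h2⟩ := h N hN
    refine ⟨_, s, ?_, (spread_iff _ _ _ _ _ _).2 ⟨2, le_rfl, h2⟩⟩
    rw [coe_Icc] at h1
    have e : ((Pool.Agent.Helper602.MK.PP N : Finset ℕ) : Set ℕ) = {p | p.Prime ∧ p ≤ N ∧ N < p ^ 2} := by
      ext p
      unfold Pool.Agent.Helper602.MK.PP
      rw [mem_coe, mem_filter, mem_Icc, Set.mem_ofPred_eq]
      constructor
      · rintro ⟨⟨_, h3⟩, h4, h5⟩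
        exact ⟨h4, h3, h5⟩
      · rintro ⟨h4, h3, h5⟩
        exact ⟨⟨h4.one_lt.le, h3⟩, h4, h5⟩
    rw [e] at h1
    exact h1

end Pool.Agent.Results.MP_e0aac0_nt.ShortShifts
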