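import Pool.Agent.J4.H12.ST.F

set_option autoImplicit false

/-!
# Independence of the values of `Ω`, and of the rough parts, at systems of linear forms

Q1 of MP_e0aac0_nt asks for the asymptotic independence of `Ω(n), Ω(n + 1), …, Ω(n + k - 1)`. We prove the
independence, tested on products of arbitrary bounded functions, at ALL systems of pairwise non proportional
affine linear forms in several variables (finite complexity), at every scale, with natural averages and with
arbitrary structured side information. In particular `Ω(n), Ω(n + d), …, Ω(n + (k - 1) d)` are asymptotically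
independent for almost all `d ≤ X`, for every `k`. The results are uniform in the test functions `A_i`, which may
depend on the scale, and the values `Ω(n)` may be replaced by the pairs `(Ω(n), n_{>w})`, where `n_{>w}` is the part
of `n` composed of the primes larger than a large constant `w`; so nearly the complete factorization of `n` is
covered, for instance `Ω(n)` together with the largest prime factors of `n`.

Proof.
1. (`Pool.Agent.J4.H12.LO`: `Mult`, `Eng`, `Step`, `Struct`, `Elim`, `Iso`) The structure theorem of the starting files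
   for the correlations of multiplicative functions at linear forms (`Pool.Agent.N675.M`) is carried over to the
   functions `F` with `F(p m) = g(p) G(m)` at the primes `p ≤ T`: if the correlations are large in mean square, then
   one of the functions has large averages over long arithmetic progressions (`iso`). One variable after the other
   is removed by the dilation principle (the means of `F(a_i n + L_i(y))` at `y + p l` and at `y + l` are compared)
   and the inverse theorem for the box norm of order two.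
2. (`J4.H12.ST`: `A`, `B`, `C`) The functions of `(Ω(n), n_{>w})` are equidistributed in residue classes on all intervals
   (the argument of the starting file `Pool.Agent.TH575.OM.Eqd`, there for functions of `Ω(n)`).
3. (`LO.Gn3`) So all Gowers norms of their balanced functions are small on all windows.
4. (`LO.Gn5`, `ST.D`) The generalised von Neumann theorem (starting files `Pool.Agent.W36.GK`, and
   `Pool.Agent.J4.H12.IE.inv_small`), and the density Hales-Jewett theorem of the starting files (`IE.many`) for (E).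
-/

namespace Pool.Agent.Results.MP_e0aac0_nt.SystemsOfLinearForms

open Finset

/-- The part `n_{>w}` of `n` composed of the primes larger than `w`. -/
def rough (w n : ℕ) : ℕ := (n.primeFactorsList.filter fun p => w < p).prod

/-- The value `A(Ω(n), n_{>w})`. -/
noncomputable def val (A : ℕ → ℕ → ℝ) (w : ℕ) (n : ℤ) : ℝ :=
  A (ArithmeticFunction.cardFactors n.toNat) (rough w n.toNat)

/-- The mean of `A(Ω(n), n_{>w})` over `1 ≤ n ≤ X`. -/
noncomputable def mean (A : ℕ → ℕ → ℝ) (w X : ℕ) : ℝ := (∑ n ∈ Icc 1 X, val A w n) / X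

/-- The value `Λ • x`. -/
def lin {D : ℕ} (Λ x : Fin D → ℤ) : ℤ := ∑ j, Λ j * x j

/-- The integer points of the box `∏ (P j, P' j]`. -/
noncomputable def box {D : ℕ} (P P' : Fin D → ℤ) : Finset (Fin D → ℤ) := Fintype.piFinset fun j => Ioc (P j) (P' j)

/-- The number of the points `u` with `u + d F_b ∈ E_b` for all `b`. -/
noncomputable def conf {e q : ℕ} (F : Fin (q + 1) → Fin e → ℤ) (E : Fin (q + 1) → Finset (Fin e → ℤ))
    (d : ℤ) : ℕ := {u : Fin e → ℤ | ∀ b, u + d • F b ∈ E b}.ncard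

/-- **Theorem.** In all parts the functions `A i`, with values in `[-1, 1]`, are arbitrary; `X0` and `w0` do not
depend on them.

(A) Let `Λ_1, …, Λ_r` be nonzero and pairwise non proportional integral linear forms in `D` variables and
`Λ_i • v_l ≠ 0`. For `ε > 0` there are `w0`, `X0` such that for `X ≥ X0`, `w ≥ w0`, all functions `A_i`, all functions `g_l`
with values in `[-1, 1]` which are invariant under the translation by `v_l`, all integers `c_i`, all windows
`(M_i, N_i]` in `[0, X]` and all boxes with sides at most `X`: the sum of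
`(∏ A_i(Ω(ψ_i), (ψ_i)_{>w}) - ∏ mean(A_i)) ∏ g_l(y)`, `ψ_i = Λ_i • y + c_i`, over the points `y` of the box at which
`M_i < ψ_i ≤ N_i` for all `i`, is at most `ε X ^ D` in absolute value.
(B) Almost all parameters: for forms `ψ_i(n, y) = a_i n + L_i • y + c_i` with `a_i ≠ 0`, pairwise non proportional,
the sum over the points `y` of a box of the absolute values of the sums over `n` (in an interval, and with
`M_i < ψ_i ≤ N_i`) of `∏ A_i(Ω(ψ_i), (ψ_i)_{>w}) - ∏ mean(A_i)` is at most `ε X ^ (D + 1)`.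
(C) For all `k`: for almost all `d ≤ X` the pairs `(Ω(n + i d), (n + i d)_{>w})`, `0 ≤ i < k`, are independent.
(D) For ARBITRARY sets `E_b` of points of `(0, X] ^ e` and `F_b ∈ ℤ ^ e`: the pair `(Ω(d), d_{>w})` of the common
differences `d` of the configurations `u + d F_b ∈ E_b` is distributed as for the integers `d ≤ X`.
(E) A set of a positive proportion `α` of the points of `(0, X] ^ e` contains a positive proportion of the
configurations `u + d F_b` with `(Ω(d), d_{>w})` in a given set (or with a given weight). -/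
theorem result :
    -- (A)
    (∀ (D r K : ℕ) (Λ : Fin r → Fin D → ℤ) (v : Fin K → Fin D → ℤ), (∀ i, Λ i ≠ 0) →
      (∀ i j, i ≠ j → ∀ s t : ℤ, s • Λ i = t • Λ j → s = 0 ∧ t = 0) → (∀ i l, lin (Λ i) (v l) ≠ 0) →
      ∀ ε : ℝ, 0 < ε → ∃ w0 X0 : ℕ, ∀ X : ℕ, X0 ≤ X → ∀ w : ℕ, w0 ≤ w →
      ∀ A : Fin r → ℕ → ℕ → ℝ, (∀ i l m, |A i l m| ≤ 1) →
      ∀ g : Fin K → (Fin D → ℤ) → ℝ, (∀ l y, |g l y| ≤ 1) → (∀ l y, g l (y + v l) = g l y) →
      ∀ (c : Fin r → ℤ) (M N : Fin r → ℕ), (∀ i, N i ≤ X) → ∀ P P' : Fin D → ℤ,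
      (∀ j, P' j - P j ≤ X) →
      |∑ y ∈ (box P P').filter (fun y => ∀ i, (M i : ℤ) < lin (Λ i) y + c i ∧ lin (Λ i) y + c i ≤ N i),
        (∏ i, val (A i) w (lin (Λ i) y + c i) - ∏ i, mean (A i) w X) * ∏ l, g l y|
        ≤ ε * (X : ℝ) ^ D) ∧
    -- (B)
    (∀ (D r : ℕ) (a : Fin r → ℤ) (L : Fin r → Fin D → ℤ), (∀ i, a i ≠ 0) →
      (∀ i j, i ≠ j → a i • L j ≠ a j • L i) →
      ∀ ε : ℝ, 0 < ε → ∃ w0 X0 : ℕ, ∀ X : ℕ, X0 ≤ X → ∀ w : ℕ, w0 ≤ w →
      ∀ A : Fin r → ℕ → ℕ → ℝ, (∀ i l m, |A i l m| ≤ 1) →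
      ∀ (c : Fin r → ℤ) (M N : Fin r → ℕ), (∀ i, N i ≤ X) → ∀ (p p' : ℤ), p' - p ≤ X →
      ∀ P P' : Fin D → ℤ, (∀ j, P' j - P j ≤ X) →
      ∑ y ∈ box P P', |∑ n ∈ (Ioc p p').filter (fun n => ∀ i,
          (M i : ℤ) < a i * n + lin (L i) y + c i ∧ a i * n + lin (L i) y + c i ≤ N i),
        (∏ i, val (A i) w (a i * n + lin (L i) y + c i) - ∏ i, mean (A i) w X)|
        ≤ ε * (X : ℝ) ^ (D + 1)) ∧
    -- (C)
    (∀ k : ℕ, ∀ ε : ℝ, 0 < ε → ∃ w0 X0 : ℕ, ∀ X : ℕ, X0 ≤ X → ∀ w : ℕ, w0 ≤ w →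
      ∀ A : Fin k → ℕ → ℕ → ℝ, (∀ i l m, |A i l m| ≤ 1) →
      ∑ d ∈ Icc 1 X, |∑ n ∈ Icc 1 X, ∏ i : Fin k, val (A i) w ((n + i * d : ℕ) : ℤ)
        - X * ∏ i, mean (A i) w X| ≤ ε * (X : ℝ) ^ 2) ∧
    -- (D)
    (∀ (e q : ℕ) (F : Fin (q + 1) → Fin e → ℤ),
      ∀ ε : ℝ, 0 < ε → ∃ w0 X0 : ℕ, ∀ X : ℕ, X0 ≤ X → ∀ w : ℕ, w0 ≤ w →
      ∀ A : ℕ → ℕ → ℝ, (∀ l m, |A l m| ≤ 1) → ∀ E : Fin (q + 1) → Finset (Fin e → ℤ),
      (∀ b, ∀ u ∈ E b, ∀ j, 0 < u j ∧ u j ≤ X) →
      |∑ d ∈ Icc 1 X, (val A w (d : ℤ) - mean A w X) * (conf F E d : ℝ)|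
        ≤ ε * (X : ℝ) ^ (e + 1)) ∧
    -- (E)
    (∀ (e q : ℕ) (F : Fin (q + 1) → Fin e → ℤ) (α : ℝ), 0 < α →
      ∃ c : ℝ, 0 < c ∧ ∀ ε : ℝ, 0 < ε → ∃ w0 X0 : ℕ, ∀ X : ℕ, X0 ≤ X → ∀ w : ℕ, w0 ≤ w →
      ∀ A : ℕ → ℕ → ℝ, (∀ l m, 0 ≤ A l m ∧ A l m ≤ 1) → ∀ E : Finset (Fin e → ℤ),
      (∀ u ∈ E, ∀ j, 0 < u j ∧ u j ≤ X) → α * (X : ℝ) ^ e ≤ E.card →
      (c * mean A w X - ε) * (X : ℝ) ^ (e + 1) ≤
        ∑ d ∈ Icc 1 X, val A w (d : ℤ) * (conf F (fun _ => E) d : ℝ)) := by
  have hval : ∀ (A : ℕ → ℕ → ℝ) (w n : ℕ), val A w (n : ℤ)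
      = A (ArithmeticFunction.cardFactors n) (J4.H12.ST.rough w n) := by
    intro A w n
    unfold val
    rw [Int.toNat_natCast]
    rfl
  have hmean : ∀ (A : ℕ → ℕ → ℝ) (w X : ℕ), mean A w X = J4.H12.ST.mean A w X := by
    intro A w X
    unfold mean J4.H12.ST.mean
    simp only [hval]
  refine ⟨?_, ?_, ?_, ?_, ?_⟩
  · intro D r K Λ v h0 hΛ hv ε hε
    obtain ⟨w0, X0, -, h⟩ := J4.H12.ST.forms Λ h0 hΛ v hv hε
    refine ⟨w0, X0, fun X hX w hw A hA g hg hgi c M N hN P P' hP => ?_⟩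
    simp only [hmean]
    exact h X hX w hw A hA g hg hgi c M N hN P P' hP
  · intro D r a L ha hL ε hε
    obtain ⟨w0, X0, -, h⟩ := J4.H12.ST.params a L ha hL hε
    refine ⟨w0, X0, fun X hX w hw A hA c M N hN p p' hp P P' hP => ?_⟩
    simp only [hmean]
    exact h X hX w hw A hA c M N hN p p' hp P P' hP
  · intro k ε hε
    obtain ⟨w0, X0, h⟩ := J4.H12.ST.progressions k hε
    refine ⟨w0, X0, fun X hX w hw A hA => ?_⟩
    simp only [hmean, hval]
    exact h X hX w hw A hA
  · intro e q F ε hε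
    obtain ⟨w0, X0, -, h⟩ := J4.H12.ST.diffs F hε
    refine ⟨w0, X0, fun X hX w hw A hA E hE => ?_⟩
    simp only [hmean, hval]
    exact h X hX w hw A hA E fun b u hu => J4.H12.IE.mem_cube.2 (hE b u hu)
  · intro e q F α hα
    obtain ⟨c, hc, h⟩ := J4.H12.ST.szem F hα
    refine ⟨c, hc, fun ε hε => ?_⟩
    obtain ⟨w0, X0, h2⟩ := h ε hε
    refine ⟨w0, X0, fun X hX w hw A hA E hE hEc => ?_⟩
    simp only [hmean, hval]
    exact h2 X hX w hw A hA E (fun u hu => J4.H12.IE.mem_cube.2 (hE u hu)) hEc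

end Pool.Agent.Results.MP_e0aac0_nt.SystemsOfLinearForms
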